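import Pool.Agent.Helper84.FP.Goals

/-!
# Project FQ (MP_43a2f8_nt): packet CHA
-/

set_option autoImplicit false

namespace Pool.Agent.Helper24.FQ.CHA

open Finset Pool.Agent.Helper91.FP Pool.Agent.Helper84.FP

lemma G_pos (p k : ℕ) : 0 < G p k := by
  obtain ⟨s, hs⟩ := G_mod p k
  omega

lemma W_pos {S E L : Finset ℕ} {k : ℕ → ℕ} (h2 : ∀ p ∈ S, 2 ≤ p) (hE : E ⊆ S) (hL : L ⊆ S) :
    0 < W k E L := by
  unfold W
  refine Nat.mul_pos (Finset.prod_pos fun p hp ↦ ?_) (Finset.prod_pos fun p hp ↦ ?_)
  · have := h2 p (hE hp)
    positivity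
  · have := h2 p (hL hp)
    have h : 0 < p - 1 := by omega
    positivity

/-- One denominator is moved from the limit ones to the exact ones. -/
lemma W_move {E L : Finset ℕ} {k : ℕ → ℕ} {p : ℕ} (hpL : p ∈ L) (hpE : p ∉ E) :
    W k (insert p E) (L.erase p) * (p - 1) ^ 2 = W k E L * p ^ k p := by
  unfold W
  rw [Finset.prod_insert hpE, ← Finset.prod_erase_mul L _ hpL]
  ring

lemma W_add {E L : Finset ℕ} {k : ℕ → ℕ} {p : ℕ} (hpL : p ∉ L) :
    W k E (insert p L) = W k E L * (p - 1) ^ 2 := by
  unfold W
  rw [Finset.prod_insert hpL]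
  ring

theorem key (hGAP : S_GAP) (S : Finset ℕ) (k : ℕ → ℕ) (N : ℕ)
    (h2 : ∀ p ∈ S, 2 ≤ p) (h1 : ∀ p ∈ S, 1 ≤ k p)
    (hN : ∏ p ∈ S, G p (k p) = N * ∏ p ∈ S, p ^ k p) :
    ∀ (m : ℕ) (E L : Finset ℕ), E ⊆ S → L ⊆ S → Disjoint E L →
      2 * (S \ (E ∪ L)).card + L.card = m →
      N * S.card * ∏ p ∈ S, p ^ k p ≤
        (N * S.card * W k E L) ^ (6 ^ (S \ (E ∪ L)).card * 2 ^ L.card) := by
  intro m
  induction m with
  | zero =>
    intro E L hE hL hd hm
    have hu : (S \ (E ∪ L)).card = 0 := by omega
    have hl : L.card = 0 := by omega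
    have hL0 : L = ∅ := Finset.card_eq_zero.1 hl
    have hS : S ⊆ E := by
      have h := Finset.card_eq_zero.1 hu
      rw [Finset.sdiff_eq_empty_iff_subset, hL0, Finset.union_empty] at h
      exact h
    have hES : E = S := Finset.Subset.antisymm hE hS
    rw [hu, hl]
    subst hES
    subst hL0
    simp [W]
  | succ m ih =>
    intro E L hE hL hd hm
    by_cases hES : E = S
    · exfalso
      have hL0 : L = ∅ := by
        rw [hES] at hd
        rw [← Finset.inter_eq_left.2 hL, Finset.inter_comm]
        exact Finset.disjoint_iff_inter_eq_empty.1 hd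
      rw [hES, hL0] at hm
      simp at hm
    · set V : ℕ := N * S.card * W k E L with hV
      have hNpos : 0 < N := by
        rcases Nat.eq_zero_or_pos N with h0 | h0
        · exfalso
          rw [h0, zero_mul] at hN
          have h3 : 0 < ∏ p ∈ S, G p (k p) := Finset.prod_pos fun p _ ↦ G_pos p (k p)
          omega
        · exact h0
      have hSpos : 0 < S.card := by
        rw [Finset.card_pos]
        by_contra hne
        rw [Finset.not_nonempty_iff_eq_empty] at hne
        apply hES
        rw [hne] at hE ⊢
        exact Finset.subset_empty.1 hE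
      have hVpos : 0 < V := Nat.mul_pos (Nat.mul_pos hNpos hSpos) (W_pos h2 hE hL)
      rcases hGAP S E L k N h2 h1 hN hE hL hd hES with ⟨p, hpL, hp⟩ | ⟨p, hpU, hp⟩
      · have hpS := hL hpL
        have hp2 := h2 p hpS
        have hpE : p ∉ E := fun h ↦ (Finset.disjoint_left.1 hd h) hpL
        have hsub1 : insert p E ⊆ S := Finset.insert_subset hpS hE
        have hsub2 : L.erase p ⊆ S := (Finset.erase_subset _ _).trans hL
        have hd' : Disjoint (insert p E) (L.erase p) := by
          rw [Finset.disjoint_left]
          intro x hx hx'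
          rw [Finset.mem_erase] at hx'
          rcases Finset.mem_insert.1 hx with h | h
          · exact hx'.1 h
          · exact (Finset.disjoint_left.1 hd h) hx'.2
        have hun : insert p E ∪ L.erase p = E ∪ L := by
          ext x
          simp only [Finset.mem_union, Finset.mem_insert, Finset.mem_erase]
          constructor
          · rintro ((rfl | h) | h)
            · exact Or.inr hpL
            · exact Or.inl h
            · exact Or.inr h.2
          · rintro (h | h)
            · exact Or.inl (Or.inr h)
            · by_cases hx : x = p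
              · exact Or.inl (Or.inl hx)
              · exact Or.inr ⟨hx, h⟩
        have hLc : (L.erase p).card + 1 = L.card := Finset.card_erase_add_one hpL
        have h3 := ih (insert p E) (L.erase p) hsub1 hsub2 hd' (by rw [hun]; omega)
        rw [hun] at h3
        refine h3.trans ?_
        have hle1 : W k (insert p E) (L.erase p) ≤ W k E L * p ^ k p := by
          rw [← W_move hpL hpE]
          refine Nat.le_mul_of_pos_right _ ?_
          have : 0 < p - 1 := by omega
          positivity
        have hle2 : p ^ k p ≤ V := by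
          refine le_trans (Nat.le_mul_of_pos_right _ ?_) hp
          have : 0 < p - 1 := by omega
          positivity
        have hle3 : N * S.card * W k (insert p E) (L.erase p) ≤ V ^ 2 := by
          calc N * S.card * W k (insert p E) (L.erase p)
              ≤ N * S.card * (W k E L * p ^ k p) := Nat.mul_le_mul_left _ hle1
            _ = V * p ^ k p := by rw [hV]; ring
            _ ≤ V * V := Nat.mul_le_mul_left _ hle2
            _ = V ^ 2 := by ring
        calc (N * S.card * W k (insert p E) (L.erase p)) ^
              (6 ^ (S \ (E ∪ L)).card * 2 ^ (L.erase p).card)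
            ≤ (V ^ 2) ^ (6 ^ (S \ (E ∪ L)).card * 2 ^ (L.erase p).card) :=
              Nat.pow_le_pow_left hle3 _
          _ = V ^ (6 ^ (S \ (E ∪ L)).card * 2 ^ L.card) := by
              rw [← pow_mul, ← hLc, pow_succ]
              ring_nf
      · rw [Finset.mem_sdiff, Finset.mem_union, not_or] at hpU
        obtain ⟨hpS, hpE, hpL⟩ := hpU
        have hp2 := h2 p hpS
        have hsub2 : insert p L ⊆ S := Finset.insert_subset hpS hL
        have hd' : Disjoint E (insert p L) := by
          rw [Finset.disjoint_left]
          intro x hx hx'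
          rcases Finset.mem_insert.1 hx' with h | h
          · exact hpE (h ▸ hx)
          · exact (Finset.disjoint_left.1 hd hx) h
        have hU : S \ (E ∪ insert p L) = (S \ (E ∪ L)).erase p := by
          ext x
          simp only [Finset.mem_sdiff, Finset.mem_union, Finset.mem_insert, Finset.mem_erase]
          tauto
        have hpU' : p ∈ S \ (E ∪ L) := by
          rw [Finset.mem_sdiff, Finset.mem_union, not_or]
          exact ⟨hpS, hpE, hpL⟩
        have hUc : (S \ (E ∪ insert p L)).card + 1 = (S \ (E ∪ L)).card := by
          rw [hU]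
          exact Finset.card_erase_add_one hpU'
        have hLc : (insert p L).card = L.card + 1 := Finset.card_insert_of_notMem hpL
        have h3 := ih E (insert p L) hE hsub2 hd' (by omega)
        refine h3.trans ?_
        have hle3 : N * S.card * W k E (insert p L) ≤ V ^ 3 := by
          rw [W_add hpL]
          calc N * S.card * (W k E L * (p - 1) ^ 2) = V * (p - 1) ^ 2 := by rw [hV]; ring
            _ ≤ V * V ^ 2 := Nat.mul_le_mul_left _ (Nat.pow_le_pow_left hp 2)
            _ = V ^ 3 := by ring
        calc (N * S.card * W k E (insert p L)) ^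
              (6 ^ (S \ (E ∪ insert p L)).card * 2 ^ (insert p L).card)
            ≤ (V ^ 3) ^ (6 ^ (S \ (E ∪ insert p L)).card * 2 ^ (insert p L).card) :=
              Nat.pow_le_pow_left hle3 _
          _ = V ^ (6 ^ (S \ (E ∪ L)).card * 2 ^ L.card) := by
              rw [← pow_mul, hLc, ← hUc, pow_succ, pow_succ]
              ring_nf

theorem t : S_GAP → S_CHA := by
  intro hGAP S k N h2 h1 hN
  have h := key hGAP S k N h2 h1 hN _ ∅ ∅ (Finset.empty_subset _) (Finset.empty_subset _)
    (Finset.disjoint_empty_left _) rfl
  simpa [W] using h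

end Pool.Agent.Helper24.FQ.CHA
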